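import Mathlib

/-!
# Weighted graphs: definitions, the extension by one level
-/

set_option autoImplicit false

namespace Pool.Agent.Helper78.FracLB

open Finset

open scoped Classical

noncomputable section

/-- degeneracy, in terms of finite sets of vertices -/
def Deg {V : Type} (G : SimpleGraph V) (d : ℕ) : Prop :=
  ∀ s : Finset V, s.Nonempty → ∃ v ∈ s, (s.filter fun w => G.Adj v w).card ≤ d

/-- independent sets -/
def Indep {V : Type} (G : SimpleGraph V) (I : Set V) : Prop :=
  ∀ v ∈ I, ∀ w ∈ I, ¬ G.Adj v w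

/-- the weight of a set -/
def wt {V : Type} [Fintype V] (μ : V → ℝ) (I : Set V) : ℝ := ∑ v, if v ∈ I then μ v else 0

theorem wt_nonneg {V : Type} [Fintype V] {μ : V → ℝ} (h : ∀ v, 0 ≤ μ v) (I : Set V) :
    0 ≤ wt μ I := sum_nonneg fun v _ => by split_ifs; exacts [h v, le_rfl]

theorem wt_le_sum {V : Type} [Fintype V] {μ : V → ℝ} (h : ∀ v, 0 ≤ μ v) (I : Set V) :
    wt μ I ≤ ∑ v, μ v := sum_le_sum fun v _ => by split_ifs; exacts [le_rfl, h v]

/-- the graph with one more level -/
def extG {V W : Type} (G : SimpleGraph V) (H : SimpleGraph W) (i : ℕ) :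
    SimpleGraph (V ⊕ ((Fin i → V) × W)) where
  Adj x y := match x, y with
    | .inl a, .inl b => G.Adj a b
    | .inl a, .inr (Z, _) => (∀ s t, ¬ G.Adj (Z s) (Z t)) ∧ ∃ t, Z t = a
    | .inr (Z, _), .inl a => (∀ s t, ¬ G.Adj (Z s) (Z t)) ∧ ∃ t, Z t = a
    | .inr (Z, h), .inr (Z', h') => Z = Z' ∧ H.Adj h h'
  symm := by
    refine ⟨?_⟩
    rintro (a | ⟨Z, h⟩) (b | ⟨Z', h'⟩) hab
    · exact SimpleGraph.Adj.symm (show G.Adj a b from hab)
    · exact hab
    · exact hab
    · exact ⟨hab.1.symm, hab.2.symm⟩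
  loopless := by
    refine ⟨?_⟩
    rintro (a | ⟨Z, h⟩) hab
    · exact G.irrefl hab
    · exact H.irrefl hab.2

section ext

variable {V W : Type} {G : SimpleGraph V} {H : SimpleGraph W} {i : ℕ}

@[simp] theorem ext_ll (a b : V) : (extG G H i).Adj (.inl a) (.inl b) ↔ G.Adj a b := Iff.rfl

@[simp] theorem ext_lr (a : V) (Z : Fin i → V) (h : W) :
    (extG G H i).Adj (.inl a) (.inr (Z, h)) ↔ (∀ s t, ¬ G.Adj (Z s) (Z t)) ∧ ∃ t, Z t = a :=
  Iff.rfl

@[simp] theorem ext_rl (a : V) (Z : Fin i → V) (h : W) :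
    (extG G H i).Adj (.inr (Z, h)) (.inl a) ↔ (∀ s t, ¬ G.Adj (Z s) (Z t)) ∧ ∃ t, Z t = a :=
  Iff.rfl

@[simp] theorem ext_rr (Z Z' : Fin i → V) (h h' : W) :
    (extG G H i).Adj (.inr (Z, h)) (.inr (Z', h')) ↔ Z = Z' ∧ H.Adj h h' := Iff.rfl

theorem extG_cliqueFree {r : ℕ} (hG : G.CliqueFree (r + 1)) (hH : H.CliqueFree r) :
    (extG G H i).CliqueFree (r + 1) := by
  intro t ht
  have hc : ∀ x ∈ t, ∀ y ∈ t, x ≠ y → (extG G H i).Adj x y := fun x hx y hy hxy =>
    ht.1 hx hy hxy
  have hcard : t.toLeft.card + t.toRight.card = r + 1 := by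
    rw [Finset.card_toLeft_add_card_toRight, ht.2]
  rcases t.toRight.eq_empty_or_nonempty with h0 | ⟨⟨Z, h⟩, hZ⟩
  · rw [h0, card_empty, add_zero] at hcard
    refine hG t.toLeft ⟨?_, hcard⟩
    intro a ha b hb hab
    exact hc (.inl a) (by simpa using ha) (.inl b) (by simpa using hb) (by simpa using hab)
  · have hZ' : (Sum.inr (Z, h) : V ⊕ ((Fin i → V) × W)) ∈ t := by simpa using hZ
    -- all elements of the right part have the same tuple
    have hsame : ∀ y ∈ t.toRight, y.1 = Z := by
      rintro ⟨Z', h'⟩ hy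
      by_cases he : (Z', h') = (Z, h)
      · rw [he]
      · have := hc (.inr (Z', h')) (by simpa using hy) _ hZ' (by simpa using he)
        exact ((ext_rr _ _ _ _).1 this).1
    have hleft : t.toLeft.card ≤ 1 := by
      rw [Finset.card_le_one]
      intro a ha b hb
      by_contra hab
      have h1 := (ext_lr _ _ _).1 (hc (.inl a) (by simpa using ha) _ hZ' (by simp))
      have h2 := (ext_lr _ _ _).1 (hc (.inl b) (by simpa using hb) _ hZ' (by simp))
      have h3 := hc (.inl a) (by simpa using ha) (.inl b) (by simpa using hb) (by simpa using hab)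
      obtain ⟨s, hs⟩ := h1.2
      obtain ⟨u, hu⟩ := h2.2
      exact h1.1 s u (by rw [hs, hu]; exact h3)
    have hright : r ≤ (t.toRight.image Prod.snd).card := by
      rw [card_image_of_injOn]
      · omega
      · rintro ⟨Z1, h1⟩ hh1 ⟨Z2, h2⟩ hh2 he
        have e1 := hsame _ hh1
        have e2 := hsame _ hh2
        simp only at e1 e2 he
        rw [e1, e2, he]
    obtain ⟨u, hu, hur⟩ := exists_subset_card_eq hright
    refine hH u ⟨?_, hur⟩
    intro x hx y hy hxy
    obtain ⟨⟨Z1, h1⟩, hh1, rfl⟩ := mem_image.1 (hu hx)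
    obtain ⟨⟨Z2, h2⟩, hh2, rfl⟩ := mem_image.1 (hu hy)
    have := hc (.inr (Z1, h1)) (by simpa using hh1) (.inr (Z2, h2)) (by simpa using hh2)
      (by intro he; apply hxy; simpa using congrArg (fun z => z) (by
        have := Sum.inr.inj he
        exact (Prod.mk.inj this).2))
    exact ((ext_rr _ _ _ _).1 this).2

theorem extG_deg {d e : ℕ} (hG : Deg G d) (hH : Deg H e) (hde : i + e ≤ d) :
    Deg (extG G H i) d := by
  intro s hs
  rcases s.toRight.eq_empty_or_nonempty with h0 | ⟨⟨Z, h⟩, hZ⟩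
  · have hl : s.toLeft.Nonempty := by
      obtain ⟨x, hx⟩ := hs
      rcases x with a | y
      · exact ⟨a, by simpa using hx⟩
      · exfalso
        have : y ∈ s.toRight := by simpa using hx
        rw [h0] at this
        simp at this
    obtain ⟨v, hv, hvd⟩ := hG _ hl
    refine ⟨.inl v, by simpa using hv, ?_⟩
    refine le_trans (card_le_card_of_injOn (fun x => match x with
      | .inl a => a
      | .inr _ => v) ?_ ?_) hvd
    · rintro (a | y) hx
      · simp only [coe_filter, Set.mem_ofPred_eq, ext_ll] at hx ⊢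
        simpa using hx
      · exfalso
        have : y ∈ s.toRight := by simpa using (mem_filter.1 hx).1
        rw [h0] at this
        simp at this
    · rintro (a | y) hx (b | z) hy hxy
      · simpa using hxy
      · exfalso
        have : z ∈ s.toRight := by simpa using (mem_filter.1 hy).1
        rw [h0] at this
        simp at this
      · exfalso
        have : y ∈ s.toRight := by simpa using (mem_filter.1 hx).1
        rw [h0] at this
        simp at this
      · exfalso
        have : z ∈ s.toRight := by simpa using (mem_filter.1 hy).1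
        rw [h0] at this
        simp at this
  · -- the slice over `Z`
    set S : Finset W := (s.toRight.filter fun y => y.1 = Z).image Prod.snd with hS
    have hSne : S.Nonempty := ⟨h, mem_image.2 ⟨(Z, h), mem_filter.2 ⟨hZ, rfl⟩, rfl⟩⟩
    have hSmem : ∀ x, x ∈ S ↔ (Z, x) ∈ s.toRight := by
      intro x
      rw [hS]
      constructor
      · intro hx
        obtain ⟨⟨Z1, x1⟩, h1, rfl⟩ := mem_image.1 hx
        obtain ⟨h2, h3⟩ := mem_filter.1 h1
        simp only at h3
        rw [← h3]
        exact h2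
      · intro hx
        exact mem_image.2 ⟨(Z, x), mem_filter.2 ⟨hx, rfl⟩, rfl⟩
    obtain ⟨x, hx, hxe⟩ := hH S hSne
    refine ⟨.inr (Z, x), by simpa using (hSmem x).1 hx, ?_⟩
    have hsub : (s.filter fun w => (extG G H i).Adj (.inr (Z, x)) w) ⊆
        ((univ : Finset (Fin i)).image fun t => (Sum.inl (Z t) : V ⊕ ((Fin i → V) × W))) ∪
        ((S.filter fun w => H.Adj x w).image fun w => Sum.inr (Z, w)) := by
      rintro (a | ⟨Z', y⟩) hy
      · obtain ⟨_, h2⟩ := mem_filter.1 hy
        obtain ⟨_, t, ht⟩ := (ext_rl _ _ _).1 h2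
        exact mem_union_left _ (mem_image.2 ⟨t, mem_univ _, by rw [ht]⟩)
      · obtain ⟨h1, h2⟩ := mem_filter.1 hy
        obtain ⟨h3, h4⟩ := (ext_rr _ _ _ _).1 h2
        subst h3
        exact mem_union_right _ (mem_image.2 ⟨y, mem_filter.2 ⟨(hSmem y).2 (by simpa using h1), h4⟩, rfl⟩)
    calc _ ≤ _ := card_le_card hsub
      _ ≤ _ := card_union_le _ _
      _ ≤ i + e := Nat.add_le_add (card_image_le.trans (by simp)) (card_image_le.trans hxe)
      _ ≤ d := hde

end ext

end

end Pool.Agent.Helper78.FracLB
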