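import Pool.Agent.Helper78.FracLB.Recursion

/-!
# The lower bound for the fractional chromatic number of degenerate `K_r`-free graphs
-/

set_option autoImplicit false
set_option linter.unusedSectionVars false
set_option linter.unusedVariables false

namespace Pool.Agent.Helper78.FracLB

open Finset Filter

open scoped Classical

noncomputable section

theorem tendsto_iter (n : ℕ) : Tendsto (fun x : ℝ => Real.log^[n] x) atTop atTop := by
  induction n with
  | zero => exact tendsto_id
  | succ n ih =>
    have : (fun x : ℝ => Real.log^[n + 1] x) = fun x => Real.log (Real.log^[n] x) := by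
      funext x
      rw [Function.iterate_succ_apply']
    rw [this]
    exact Real.tendsto_log_atTop.comp ih

theorem mono_iter (n : ℕ) : ∀ᶠ x : ℝ in atTop, ∀ y, x ≤ y → Real.log^[n] x ≤ Real.log^[n] y := by
  induction n with
  | zero => exact Eventually.of_forall fun x y h => h
  | succ n ih =>
    filter_upwards [ih, (tendsto_iter n).eventually_ge_atTop 1] with x h1 h2 y hxy
    rw [Function.iterate_succ_apply', Function.iterate_succ_apply']
    exact Real.log_le_log (by linarith) (h1 y hxy)

theorem Pr.min_one {r e : ℕ} {ρ : ℝ} (h : Pr r e ρ) : Pr r e (min ρ 1) := by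
  obtain ⟨V, _, ⟨T⟩⟩ := h
  refine ⟨V, inferInstance, ⟨⟨T.G, T.μ, T.cf, T.deg, T.nn, T.sum, fun I hI => ?_⟩⟩⟩
  refine le_min (T.ind I hI) ?_
  rw [← T.sum]
  exact wt_le_sum T.nn I

theorem eventually_Pr (n : ℕ) : ∀ᶠ d : ℕ in atTop, Pr (n + 2) d (8 * Real.log^[n] d / d) := by
  induction n with
  | zero =>
    filter_upwards [eventually_ge_atTop 1] with d hd
    refine (Pr.two d).mono le_rfl ?_
    have : (0 : ℝ) < d := by exact_mod_cast hd
    simp only [Function.iterate_zero, id]
    rw [le_div_iff₀ this]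
    linarith
  | succ n ih =>
    have hhalf : Tendsto (fun d : ℕ => d / 2) atTop atTop :=
      Nat.tendsto_div_const_atTop (by norm_num)
    have hcast : Tendsto (fun d : ℕ => ((d / 2 : ℕ) : ℝ)) atTop atTop :=
      tendsto_natCast_atTop_atTop.comp hhalf
    filter_upwards [hhalf.eventually ih, hcast.eventually (mono_iter n),
      hcast.eventually ((tendsto_iter n).eventually_ge_atTop 33), eventually_ge_atTop 2]
      with d h1 h2 h3 h4
    set e : ℕ := d / 2 with he
    set x : ℝ := Real.log^[n] (e : ℝ) with hx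
    have hxd : x ≤ Real.log^[n] (d : ℝ) := h2 d (by exact_mod_cast Nat.div_le_self d 2)
    have he1 : 1 ≤ e := by omega
    have hke : (d - e) + e ≤ d := by omega
    have hk : 0 < d - e := by omega
    have he' : (0 : ℝ) < e := by exact_mod_cast he1
    have hd' : (0 : ℝ) < d := by exact_mod_cast (by omega : 0 < d)
    have hk1 : ((d - e : ℕ) : ℝ) ≤ 2 * e := by exact_mod_cast (by omega : d - e ≤ 2 * e)
    have hk2 : (d : ℝ) / 2 ≤ ((d - e : ℕ) : ℝ) := by
      have : d ≤ 2 * (d - e) := by omega
      have : (d : ℝ) ≤ 2 * ((d - e : ℕ) : ℝ) := by exact_mod_cast this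
      linarith
    have hρ0 : 0 ≤ min (8 * x / e) 1 := le_min (by positivity) zero_le_one
    have key := h1.min_one.succ hρ0 (min_le_right _ _) hk hke
    refine key.mono le_rfl ?_
    rw [Function.iterate_succ_apply']
    have hlog : Real.log (1 + 2 * ((d - e : ℕ) : ℝ) * min (8 * x / e) 1) ≤
        2 * Real.log (Real.log^[n] (d : ℝ)) := by
      have a1 : 1 + 2 * ((d - e : ℕ) : ℝ) * min (8 * x / e) 1 ≤ x * x := by
        have : 2 * ((d - e : ℕ) : ℝ) * min (8 * x / e) 1 ≤ 2 * (2 * e) * (8 * x / e) := by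
          refine mul_le_mul (by linarith) (min_le_left _ _) hρ0 (by positivity)
        have e2 : 2 * (2 * (e : ℝ)) * (8 * x / e) = 32 * x := by
          field_simp
          ring
        nlinarith
      calc _ ≤ Real.log (x * x) := Real.log_le_log (by positivity) a1
        _ = 2 * Real.log x := by
            rw [Real.log_mul (by linarith) (by linarith)]
            ring
        _ ≤ _ := by
            have := Real.log_le_log (by linarith) hxd
            linarith
    have hL0 : 0 ≤ Real.log (Real.log^[n] (d : ℝ)) := Real.log_nonneg (by linarith)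
    calc _ ≤ 2 * (2 * Real.log (Real.log^[n] (d : ℝ))) / ((d : ℝ) / 2) :=
          div_le_div₀ (by positivity) (by linarith) (by positivity) hk2
      _ = _ := by
          field_simp
          ring

/-- `G` is `d`-degenerate: every nonempty subgraph `H` of `G` has a vertex whose degree in `H` is
at most `d`. -/
def Degenerate {V : Type*} (G : SimpleGraph V) (d : ℕ) : Prop :=
  ∀ H : G.Subgraph, H.verts.Nonempty → ∃ v ∈ H.verts, (H.neighborSet v).ncard ≤ d

/-- feasible points of the linear program of the fractional chromatic number -/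
def Feasible {V : Type*} [Fintype V] (G : SimpleGraph V) (x : Finset V → ℝ) : Prop :=
  (∀ I, 0 ≤ x I) ∧ (∀ I : Finset V, ¬ G.IsIndepSet I → x I = 0) ∧
    ∀ v, 1 ≤ ∑ I with v ∈ I, x I

/-- The fractional chromatic number -/
def fracChrom {V : Type*} [Fintype V] (G : SimpleGraph V) : ℝ :=
  sInf {t | ∃ x : Finset V → ℝ, Feasible G x ∧ ∑ I, x I = t}

/-- The fractional chromatic numbers of all finite `d`-degenerate `K_r`-free graphs. -/
def values (r d : ℕ) : Set ℝ :=
  {t | ∃ (n : ℕ) (G : SimpleGraph (Fin n)), Degenerate G d ∧ G.CliqueFree r ∧ fracChrom G = t}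

theorem degenerate_of_deg {V : Type} [Fintype V] {G : SimpleGraph V} {d : ℕ} (h : Deg G d) :
    Degenerate G d := by
  intro H hH
  obtain ⟨v, hv, hvd⟩ := h H.verts.toFinset (by simpa using hH)
  refine ⟨v, by simpa using hv, le_trans ?_ hvd⟩
  rw [← Set.ncard_coe_finset]
  refine Set.ncard_le_ncard ?_ (Set.toFinite _)
  intro w hw
  have hadj : H.Adj v w := hw
  simp only [coe_filter, Set.mem_toFinset, Set.mem_ofPred_eq]
  exact ⟨H.edge_vert hadj.symm, H.adj_sub hadj⟩

theorem fracChrom_ge {V : Type} [Fintype V] (G : SimpleGraph V) (μ : V → ℝ) (hμ : ∀ v, 0 ≤ μ v)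
    (hμ1 : ∑ v, μ v = 1) {ρ : ℝ} (hρ : 0 < ρ) (hI : ∀ I : Set V, Indep G I → wt μ I ≤ ρ) :
    1 / ρ ≤ fracChrom G := by
  refine le_csInf ?_ ?_
  · refine ⟨_, fun I => if I.card = 1 then 1 else 0, ⟨fun I => ?_, fun I h => ?_, fun v => ?_⟩, rfl⟩
    · show (0 : ℝ) ≤ if I.card = 1 then 1 else 0
      split_ifs <;> norm_num
    · show (if I.card = 1 then (1 : ℝ) else 0) = 0
      rw [if_neg]
      intro hc
      obtain ⟨a, rfl⟩ := card_eq_one.1 hc
      apply h
      simp [SimpleGraph.IsIndepSet]
    · calc (1 : ℝ) = ∑ I ∈ {({v} : Finset V)}, (if I.card = 1 then (1 : ℝ) else 0) := by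
            rw [sum_singleton, if_pos (card_singleton v)]
        _ ≤ _ := sum_le_sum_of_subset_of_nonneg (by simp) fun I _ _ => by split_ifs <;> norm_num
  · rintro t ⟨x, ⟨h0, h1, h2⟩, rfl⟩
    rw [div_le_iff₀ hρ]
    calc (1 : ℝ) = ∑ v, μ v * 1 := by simp [hμ1]
      _ ≤ ∑ v, μ v * ∑ I with v ∈ I, x I :=
          sum_le_sum fun v _ => mul_le_mul_of_nonneg_left (h2 v) (hμ v)
      _ = ∑ v, ∑ I : Finset V, (if v ∈ I then μ v * x I else 0) := by
          refine sum_congr rfl fun v _ => ?_
          rw [sum_filter, mul_sum]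
          refine sum_congr rfl fun I _ => ?_
          split_ifs <;> simp
      _ = ∑ I : Finset V, ∑ v, (if v ∈ I then μ v * x I else 0) := sum_comm
      _ ≤ ∑ I : Finset V, x I * ρ := by
          refine sum_le_sum fun I _ => ?_
          by_cases hi : G.IsIndepSet I
          · have hw := hI (I : Set V) fun v hv w hw hvw => hi hv hw hvw.ne hvw
            calc _ = x I * wt μ (I : Set V) := by
                  unfold wt
                  rw [mul_sum]
                  refine sum_congr rfl fun v _ => ?_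
                  simp only [mem_coe]
                  split_ifs
                  · ring
                  · ring
              _ ≤ _ := mul_le_mul_of_nonneg_left hw (h0 I)
          · rw [h1 I hi]
            simp
      _ = _ := by rw [sum_mul]

theorem fracChrom_equiv {V W : Type} [Fintype V] [Fintype W] (G : SimpleGraph V)
    (H : SimpleGraph W) (f : G ≃g H) : fracChrom G = fracChrom H := by
  have key : ∀ {V W : Type} [Fintype V] [Fintype W] (G : SimpleGraph V)
      (H : SimpleGraph W) (f : G ≃g H) (t : ℝ),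
      (∃ x : Finset V → ℝ, Feasible G x ∧ ∑ I, x I = t) →
      ∃ x : Finset W → ℝ, Feasible H x ∧ ∑ I, x I = t := by
    intro V W _ _ G H f t
    rintro ⟨x, ⟨h0, h1, h2⟩, rfl⟩
    have hadj : ∀ a b, H.Adj a b ↔ G.Adj (f.symm a) (f.symm b) := fun a b =>
      (f.symm.map_adj_iff).symm
    refine ⟨fun I => x (I.map f.symm.toEquiv.toEmbedding), ⟨fun I => h0 _, fun I h => h1 _ ?_,
      fun w => ?_⟩, ?_⟩
    · intro hi
      apply h
      intro a ha b hb hab hadj'
      refine hi (x := f.symm a) (by simpa using ha) (y := f.symm b) (by simpa using hb) ?_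
        ((hadj a b).1 hadj')
      intro he
      exact hab (f.symm.injective he)
    · refine (h2 (f.symm w)).trans (le_of_eq ?_)
      symm
      refine sum_equiv (Equiv.finsetCongr f.symm.toEquiv) ?_ ?_
      · intro I
        simp only [mem_filter, mem_univ, true_and]
        show w ∈ I ↔ f.symm w ∈ I.map f.symm.toEquiv.toEmbedding
        rw [mem_map_equiv]
        show w ∈ I ↔ f (f.symm w) ∈ I
        rw [f.apply_symm_apply]
      · intro I _
        rfl
    · exact Equiv.sum_comp (Equiv.finsetCongr f.symm.toEquiv) x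
  unfold fracChrom
  congr 1
  ext t
  exact ⟨key G H f t, key H G f.symm t⟩

/-- the lower bound -/
theorem lower (r : ℕ) (hr : 2 ≤ r) : ∃ D : ℕ, ∀ d ≥ D,
    ∃ t ∈ values r d, (d : ℝ) / (8 * Real.log^[r - 2] d) ≤ t := by
  have h := eventually_Pr (r - 2)
  have hpos : ∀ᶠ d : ℕ in atTop, (1 : ℝ) ≤ Real.log^[r - 2] (d : ℝ) :=
    tendsto_natCast_atTop_atTop.eventually ((tendsto_iter (r - 2)).eventually_ge_atTop 1)
  obtain ⟨D, hD⟩ := eventually_atTop.1 ((h.and hpos).and (eventually_ge_atTop 1))
  refine ⟨D, fun d hd => ?_⟩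
  obtain ⟨⟨⟨V, _, ⟨T⟩⟩, h1⟩, h2⟩ := hD d hd
  have hr2 : r - 2 + 2 = r := by omega
  rw [hr2] at T
  have hd' : (0 : ℝ) < d := by exact_mod_cast h2
  have hρ : (0 : ℝ) < 8 * Real.log^[r - 2] (d : ℝ) / d := by positivity
  have hge := fracChrom_ge T.G T.μ T.nn T.sum hρ T.ind
  set f := Fintype.equivFin V with hf
  set G' : SimpleGraph (Fin (Fintype.card V)) := T.G.comap f.symm with hG'
  have iso : T.G ≃g G' := by
    refine ⟨f, ?_⟩
    intro a b
    simp [hG']
  refine ⟨fracChrom G', ⟨Fintype.card V, G', ?_, ?_, rfl⟩, ?_⟩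
  · refine degenerate_of_deg ?_
    intro s hs
    obtain ⟨v, hv, hvd⟩ := T.deg (s.map f.symm.toEmbedding) (by simpa using hs)
    obtain ⟨w, hw, rfl⟩ := mem_map.1 hv
    refine ⟨w, hw, le_trans ?_ hvd⟩
    refine card_le_card_of_injOn f.symm ?_ f.symm.injective.injOn
    intro u hu
    obtain ⟨hu1, hu2⟩ := mem_filter.1 hu
    simp only [coe_filter, Set.mem_ofPred_eq, mem_map_equiv]
    exact ⟨by simpa using hu1, hu2⟩
  · exact T.cf.comap ⟨iso.symm.toCopy⟩
  · rw [← fracChrom_equiv _ _ iso]
    refine le_trans (le_of_eq ?_) hge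
    rw [one_div, inv_div]

end

end Pool.Agent.Helper78.FracLB
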