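import Pool.Agent.Helper78.FracLB.Step

/-!
# All levels
-/

set_option autoImplicit false
set_option linter.unusedSectionVars false
set_option linter.unusedVariables false

namespace Pool.Agent.Helper78.FracLB

open Finset

open scoped Classical

noncomputable section

/-- no level -/
def stage0 (r d : ℕ) (ρ δ : ℝ) (hδ : 0 ≤ δ) : Stage r d ρ δ 0 Empty where
  G := ⊥
  μ := fun _ _ => 0
  cf := SimpleGraph.cliqueFree_of_card_lt (by simp)
  deg := by
    intro s hs
    obtain ⟨v, _⟩ := hs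
    exact v.elim
  nn := fun _ _ => le_rfl
  le := fun _ _ => hδ
  sum_le := fun _ => by simp
  sum_ge := fun j hj => absurd hj (Nat.not_lt_zero j)
  ind := fun _ _ j hj => absurd hj (Nat.not_lt_zero j)
  adj := fun _ _ => by
    simp
    positivity

/-- one more level -/
def stageSucc {r d e : ℕ} {ρ δ : ℝ} {i : ℕ} {V W : Type} [Fintype V] [Fintype W]
    (S : Stage r d ρ δ i V) (T : Wt r e ρ W) (hρ : 0 ≤ ρ) (hδ : 0 ≤ δ) (hδ1 : δ ≤ 1)
    (hde : i + e ≤ d) (hsm : (d + 1) * δ * d ^ 2 * (d + 1) ^ i ≤ 1)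
    (hT : ∀ h, T.μ h ≤ δ) (hN : ∀ h, ∑ h', (if T.G.Adj h h' then T.μ h' else 0) ≤ δ) :
    Stage r d ρ δ (i + 1) (V ⊕ ((Fin i → V) × W)) where
  G := extG S.G T.G i
  μ := extW S.G S.μ T.μ i
  cf := extG_cliqueFree S.cf T.cf
  deg := extG_deg S.deg T.deg hde
  nn := extW_nonneg S.nn T.nn
  le := extW_le hδ S.nn T.nn (fun j v => (S.le j v).trans hδ1) S.le hT
  sum_le := by
    intro j
    rcases eq_or_ne j i with rfl | hj
    · exact sum_extW_eq_le S.nn S.sum_le T.sum
    · rw [sum_extW_ne hj]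
      exact S.sum_le j
  sum_ge := by
    intro j hj
    have hd0 : (0 : ℝ) ≤ d := Nat.cast_nonneg _
    have hB : (0 : ℝ) ≤ (d + 1) * δ * d ^ 2 * (d + 1) ^ i := by positivity
    have hmono : (d + 1) * δ * d ^ 2 * (d + 1) ^ (i + 1) =
      ((d + 1) * δ * d ^ 2 * (d + 1) ^ i) * (d + 1) := by ring
    rcases eq_or_ne j i with rfl | hji
    · have hjd : (j : ℝ) ≤ d := by exact_mod_cast (by omega : j ≤ d)
      have h := sum_extW_eq_ge (G := S.G) (μ := S.μ) (θ := T.μ) (i := j) S.nn S.sum_le T.sum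
        (β := (d + 1) * δ) (η := (d + 1) * δ * d ^ 2 * (d + 1) ^ j) (by positivity) hsm S.adj
        S.sum_ge
      have h2 : (j : ℝ) * ((d + 1) * δ * d ^ 2 * (d + 1) ^ j) ≤
          d * ((d + 1) * δ * d ^ 2 * (d + 1) ^ j) := mul_le_mul_of_nonneg_right hjd hB
      have h3 : (j : ℝ) ^ 2 * ((d + 1) * δ) ≤ (d + 1) * δ * d ^ 2 * (d + 1) ^ j := by
        have h4 : (j : ℝ) ^ 2 ≤ (d : ℝ) ^ 2 := pow_le_pow_left₀ (Nat.cast_nonneg _) hjd 2
        have h5 : (1 : ℝ) ≤ (d + 1 : ℝ) ^ j := one_le_pow₀ (by linarith)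
        have h6 : (0 : ℝ) ≤ (d + 1) * δ * d ^ 2 := by positivity
        calc (j : ℝ) ^ 2 * ((d + 1) * δ) ≤ (d : ℝ) ^ 2 * ((d + 1) * δ) :=
              mul_le_mul_of_nonneg_right h4 (by positivity)
          _ = (d + 1) * δ * d ^ 2 * 1 := by ring
          _ ≤ _ := mul_le_mul_of_nonneg_left h5 h6
      rw [hmono]
      linarith
    · rw [sum_extW_ne hji, hmono]
      have := S.sum_ge j (by omega)
      nlinarith
  ind := by
    intro I hI j hj
    have hJ : Indep S.G {a | Sum.inl a ∈ I} := fun v hv w hw hvw => hI _ hv _ hw hvw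
    have hs : ∑ l ∈ range j, wt (extW S.G S.μ T.μ i l) I =
        ∑ l ∈ range j, wt (S.μ l) {a | Sum.inl a ∈ I} := by
      refine sum_congr rfl fun l hl => wt_extW_ne ?_ I
      have := mem_range.1 hl
      omega
    rw [hs]
    rcases eq_or_ne j i with rfl | hji
    · exact wt_extW_eq S.nn S.sum_le hρ T.ind I hI
    · rw [wt_extW_ne hji]
      exact S.ind _ hJ j (by omega)
  adj := by
    -- a pair of levels one of which is the new one
    have hnew : ∀ l, ∑ v, ∑ w, (if (extG S.G T.G i).Adj v w then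
        extW S.G S.μ T.μ i i v * extW S.G S.μ T.μ i l w else 0) ≤ (d + 1) * δ := by
      intro l
      have hid : (i : ℝ) ≤ d := by exact_mod_cast (by omega : i ≤ d)
      calc _ = ∑ v, extW S.G S.μ T.μ i i v * ∑ w, (if (extG S.G T.G i).Adj v w then
            extW S.G S.μ T.μ i l w else 0) := by
            refine sum_congr rfl fun v _ => ?_
            rw [mul_sum]
            refine sum_congr rfl fun w _ => ?_
            split_ifs <;> simp
        _ ≤ ∑ v, extW S.G S.μ T.μ i i v * ((d + 1) * δ) := by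
            refine sum_le_sum fun v _ => ?_
            rcases v with a | ⟨Z, h⟩
            · rw [extW_inl_eq]; simp
            · refine mul_le_mul_of_nonneg_left ?_ (extW_nonneg S.nn T.nn _ _)
              refine (nbr_le hδ S.nn T.nn (fun j v => (S.le j v).trans hδ1) S.le hN l Z h).trans ?_
              exact mul_le_mul_of_nonneg_right (by linarith) hδ
        _ = (∑ v, extW S.G S.μ T.μ i i v) * ((d + 1) * δ) := by rw [sum_mul]
        _ ≤ 1 * ((d + 1) * δ) := mul_le_mul_of_nonneg_right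
            (sum_extW_eq_le S.nn S.sum_le T.sum) (by positivity)
        _ = _ := one_mul _
    intro j l
    rcases eq_or_ne j i with rfl | hj
    · exact hnew l
    · rcases eq_or_ne l i with rfl | hl
      · rw [adj_comm]
        exact hnew j
      · rw [Fintype.sum_sum_type]
        simp only [Fintype.sum_sum_type, extW_inl_ne hj, extW_inl_ne hl, extW_inr_ne hj,
          extW_inr_ne hl, zero_mul, mul_zero, ite_self, sum_const_zero, add_zero, ext_ll]
        exact S.adj j l

/-- all levels -/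
theorem exists_stage {r d e k : ℕ} {ρ δ : ℝ} {W : Type} [Fintype W]
    (T : Wt r e ρ W) (hρ : 0 ≤ ρ) (hδ : 0 ≤ δ) (hδ1 : δ ≤ 1)
    (hde : k + e ≤ d) (hsm : (d + 1) * δ * d ^ 2 * (d + 1) ^ k ≤ 1)
    (hT : ∀ h, T.μ h ≤ δ) (hN : ∀ h, ∑ h', (if T.G.Adj h h' then T.μ h' else 0) ≤ δ) :
    ∀ i ≤ k, ∃ (V : Type) (_ : Fintype V), Nonempty (Stage r d ρ δ i V) := by
  intro i
  induction i with
  | zero => exact fun _ => ⟨Empty, inferInstance, ⟨stage0 r d ρ δ hδ⟩⟩
  | succ i ih =>
    intro hi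
    obtain ⟨V, _, ⟨S⟩⟩ := ih (by omega)
    refine ⟨V ⊕ ((Fin i → V) × W), inferInstance, ⟨stageSucc S T hρ hδ hδ1 (by omega) ?_ hT hN⟩⟩
    refine le_trans ?_ hsm
    have hd0 : (0 : ℝ) ≤ d := Nat.cast_nonneg _
    exact mul_le_mul_of_nonneg_left (pow_le_pow_right₀ (by linarith) (by omega)) (by positivity)

/-- the recursion for the partial sums -/
theorem sum_le_log {ρ : ℝ} (hρ : 0 ≤ ρ) (hρ1 : ρ ≤ 1) (f : ℕ → ℝ) (hf : ∀ j, 0 ≤ f j) (k : ℕ)
    (h : ∀ j < k, f j ≤ ρ * Real.exp (-(∑ l ∈ range j, f l))) :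
    ∀ i ≤ k, Real.exp (∑ l ∈ range i, f l) ≤ 1 + 2 * i * ρ := by
  intro i
  induction i with
  | zero => intro _; simp
  | succ i ih =>
    intro hi
    have h1 := ih (by omega)
    have h2 := h i (by omega)
    set F := ∑ l ∈ range i, f l with hF
    have hF0 : 0 ≤ F := sum_nonneg fun l _ => hf l
    have h3 : f i ≤ 1 := by
      have : Real.exp (-F) ≤ 1 := Real.exp_le_one_iff.2 (by linarith)
      nlinarith [Real.exp_pos (-F)]
    have h4 : Real.exp (f i) ≤ 1 + 2 * f i := by
      have h5 := Real.abs_exp_sub_one_sub_id_le (x := f i) (by rw [abs_of_nonneg (hf i)]; exact h3)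
      have h6 := le_abs_self (Real.exp (f i) - 1 - f i)
      nlinarith [hf i]
    rw [sum_range_succ, Real.exp_add]
    have h7 : Real.exp F * f i ≤ ρ := by
      calc Real.exp F * f i ≤ Real.exp F * (ρ * Real.exp (-F)) :=
            mul_le_mul_of_nonneg_left h2 (Real.exp_pos _).le
        _ = ρ * (Real.exp F * Real.exp (-F)) := by ring
        _ = ρ := by rw [← Real.exp_add]; simp
    calc Real.exp F * Real.exp (f i) ≤ Real.exp F * (1 + 2 * f i) :=
          mul_le_mul_of_nonneg_left h4 (Real.exp_pos _).le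
      _ = Real.exp F + 2 * (Real.exp F * f i) := by ring
      _ ≤ (1 + 2 * i * ρ) + 2 * ρ := by linarith
      _ = _ := by push_cast; ring

end

end Pool.Agent.Helper78.FracLB
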