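import Pool.Agent.Helper78.FracLB.Levels

/-!
# The step from `K_r`-free to `K_{r+1}`-free graphs
-/

set_option autoImplicit false
set_option linter.unusedSectionVars false
set_option linter.unusedVariables false

namespace Pool.Agent.Helper78.FracLB

open Finset

open scoped Classical

noncomputable section

/-- disjoint copies -/
def copies {W : Type} (H : SimpleGraph W) (N : ℕ) : SimpleGraph (Fin N × W) where
  Adj x y := x.1 = y.1 ∧ H.Adj x.2 y.2
  symm := ⟨fun _ _ h => ⟨h.1.symm, h.2.symm⟩⟩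
  loopless := ⟨fun _ h => H.irrefl h.2⟩

theorem copies_cliqueFree {W : Type} {H : SimpleGraph W} {N r : ℕ} (h : H.CliqueFree r) :
    (copies H N).CliqueFree r := by
  intro t ht
  have hc : ∀ x ∈ t, ∀ y ∈ t, x ≠ y → (copies H N).Adj x y := fun x hx y hy hxy =>
    ht.1 hx hy hxy
  refine h (t.image Prod.snd) ⟨?_, ?_⟩
  · intro a ha b hb hab
    obtain ⟨x, hx, rfl⟩ := mem_image.1 ha
    obtain ⟨y, hy, rfl⟩ := mem_image.1 hb
    exact (hc x hx y hy (by rintro rfl; exact hab rfl)).2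
  · rw [card_image_of_injOn, ht.2]
    intro x hx y hy hxy
    by_contra hne
    exact (hc x hx y hy hne).2.ne hxy

theorem copies_deg {W : Type} {H : SimpleGraph W} {N e : ℕ} (h : Deg H e) :
    Deg (copies H N) e := by
  rintro s ⟨⟨n, x⟩, hs⟩
  set S : Finset W := (s.filter fun y => y.1 = n).image Prod.snd with hS
  have hSmem : ∀ x, x ∈ S ↔ (n, x) ∈ s := by
    intro x
    rw [hS]
    constructor
    · intro hx
      obtain ⟨⟨n1, x1⟩, h1, rfl⟩ := mem_image.1 hx
      obtain ⟨h2, h3⟩ := mem_filter.1 h1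
      simp only at h3
      rw [← h3]
      exact h2
    · intro hx
      exact mem_image.2 ⟨(n, x), mem_filter.2 ⟨hx, rfl⟩, rfl⟩
  obtain ⟨y, hy, hye⟩ := h S ⟨x, (hSmem x).2 hs⟩
  refine ⟨(n, y), (hSmem y).1 hy, le_trans ?_ hye⟩
  refine (card_le_card (t := (S.filter fun w => H.Adj y w).image fun w => (n, w)) ?_).trans
    card_image_le
  rintro ⟨n', z⟩ hz
  obtain ⟨h1, h2⟩ := mem_filter.1 hz
  obtain ⟨h3, h4⟩ := h2
  simp only at h3 h4
  subst h3
  exact mem_image.2 ⟨z, mem_filter.2 ⟨(hSmem z).2 h1, h4⟩, rfl⟩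

/-- the weighted disjoint copies -/
def copiesWt {r e : ℕ} {ρ : ℝ} {W : Type} [Fintype W] (T : Wt r e ρ W) (N : ℕ) (hN : 0 < N) :
    Wt r e ρ (Fin N × W) where
  G := copies T.G N
  μ := fun x => T.μ x.2 / N
  cf := copies_cliqueFree T.cf
  deg := copies_deg T.deg
  nn := fun x => div_nonneg (T.nn _) (Nat.cast_nonneg _)
  sum := by
    have hN' : (N : ℝ) ≠ 0 := by exact_mod_cast hN.ne'
    rw [Fintype.sum_prod_type]
    simp only [← sum_div, T.sum]
    simp [hN']
  ind := by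
    intro I hI
    have hN' : (0 : ℝ) < N := by exact_mod_cast hN
    unfold wt
    rw [Fintype.sum_prod_type]
    calc _ ≤ ∑ n : Fin N, ρ / N := by
          refine sum_le_sum fun n _ => ?_
          have := T.ind {w | (n, w) ∈ I} (fun v hv w hw hvw => hI _ hv _ hw ⟨rfl, hvw⟩)
          calc _ = (∑ w, if w ∈ {w | (n, w) ∈ I} then T.μ w else 0) / N := by
                rw [sum_div]
                refine sum_congr rfl fun w _ => ?_
                simp only [Set.mem_ofPred_eq]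
                split_ifs <;> simp
            _ ≤ ρ / N := div_le_div_of_nonneg_right this hN'.le
      _ = ρ := by
          simp
          field_simp

theorem copiesWt_small {r e : ℕ} {ρ δ : ℝ} {W : Type} [Fintype W] (T : Wt r e ρ W) (N : ℕ)
    (hN : 0 < N) (hδ : 1 / N ≤ δ) (x : Fin N × W) : (copiesWt T N hN).μ x ≤ δ := by
  refine le_trans ?_ hδ
  refine div_le_div_of_nonneg_right ?_ (Nat.cast_nonneg _)
  rw [← T.sum]
  exact single_le_sum (f := T.μ) (fun w _ => T.nn w) (mem_univ x.2)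

theorem copiesWt_nbr {r e : ℕ} {ρ δ : ℝ} {W : Type} [Fintype W] (T : Wt r e ρ W) (N : ℕ)
    (hN : 0 < N) (hδ : 1 / N ≤ δ) (x : Fin N × W) :
    ∑ y, (if (copiesWt T N hN).G.Adj x y then (copiesWt T N hN).μ y else 0) ≤ δ := by
  refine le_trans ?_ hδ
  rw [Fintype.sum_prod_type, sum_eq_single x.1]
  · calc _ ≤ ∑ w, T.μ w / N := by
          refine sum_le_sum fun w _ => ?_
          split_ifs
          · exact le_rfl
          · exact div_nonneg (T.nn _) (Nat.cast_nonneg _)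
      _ = 1 / N := by rw [← sum_div, T.sum]
  · intro n _ hn
    refine sum_eq_zero fun w _ => ?_
    rw [if_neg]
    rintro ⟨h, _⟩
    exact hn h.symm
  · simp

/-- combination of the levels -/
def ofStage {r d k : ℕ} {ρ δ : ℝ} {V : Type} [Fintype V] (S : Stage r d ρ δ k V) (hρ : 0 ≤ ρ)
    (hρ1 : ρ ≤ 1) (hk : 0 < k) (hsm : (d + 1) * δ * d ^ 2 * (d + 1) ^ k ≤ 1 / 2) :
    Wt (r + 1) d (2 * Real.log (1 + 2 * k * ρ) / k) V where
  G := S.G
  μ := fun v => (∑ j ∈ range k, S.μ j v) / ∑ j ∈ range k, ∑ v, S.μ j v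
  cf := S.cf
  deg := S.deg
  nn := fun v => div_nonneg (sum_nonneg fun j _ => S.nn j v)
    (sum_nonneg fun j _ => sum_nonneg fun v _ => S.nn j v)
  sum := by
    have hpos : 0 < ∑ j ∈ range k, ∑ v, S.μ j v := by
      have h1 : ∑ j ∈ range k, (1 / 2 : ℝ) ≤ ∑ j ∈ range k, ∑ v, S.μ j v :=
        sum_le_sum fun j hj => by
          have := S.sum_ge j (mem_range.1 hj)
          linarith
      simp at h1
      have : (0 : ℝ) < k := by exact_mod_cast hk
      linarith
    rw [← sum_div, sum_comm, div_self hpos.ne']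
  ind := by
    intro I hI
    have hk' : (0 : ℝ) < k := by exact_mod_cast hk
    have hS : (k : ℝ) / 2 ≤ ∑ j ∈ range k, ∑ v, S.μ j v := by
      have h1 : ∑ j ∈ range k, (1 / 2 : ℝ) ≤ ∑ j ∈ range k, ∑ v, S.μ j v :=
        sum_le_sum fun j hj => by
          have := S.sum_ge j (mem_range.1 hj)
          linarith
      simp at h1
      linarith
    have hlog : ∑ j ∈ range k, wt (S.μ j) I ≤ Real.log (1 + 2 * k * ρ) := by
      have := sum_le_log hρ hρ1 (fun j => wt (S.μ j) I) (fun j => wt_nonneg (S.nn j) I) k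
        (fun j hj => S.ind I hI j hj) k le_rfl
      rw [Real.le_log_iff_exp_le (by positivity)]
      exact this
    have hlog0 : 0 ≤ Real.log (1 + 2 * k * ρ) := Real.log_nonneg (by
      have : 0 ≤ 2 * k * ρ := by positivity
      linarith)
    have e1 : wt (fun v => (∑ j ∈ range k, S.μ j v) / ∑ j ∈ range k, ∑ v, S.μ j v) I =
        (∑ j ∈ range k, wt (S.μ j) I) / ∑ j ∈ range k, ∑ v, S.μ j v := by
      have e2 : ∑ j ∈ range k, wt (S.μ j) I =
          ∑ v, if v ∈ I then ∑ j ∈ range k, S.μ j v else 0 := by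
        unfold wt
        rw [sum_comm]
        refine sum_congr rfl fun v _ => ?_
        split_ifs
        · rfl
        · simp
      rw [e2, sum_div]
      unfold wt
      refine sum_congr rfl fun v _ => ?_
      split_ifs
      · rfl
      · simp
    rw [e1]
    calc _ ≤ Real.log (1 + 2 * k * ρ) / (k / 2) :=
          div_le_div₀ hlog0 hlog (by positivity) hS
      _ = _ := by field_simp

/-- existence of a weighted graph -/
def Pr (r e : ℕ) (ρ : ℝ) : Prop := ∃ (V : Type) (_ : Fintype V), Nonempty (Wt r e ρ V)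

theorem Pr.mono {r e e' : ℕ} {ρ ρ' : ℝ} (h : Pr r e ρ) (he : e ≤ e') (hρ : ρ ≤ ρ') :
    Pr r e' ρ' := by
  obtain ⟨V, _, ⟨T⟩⟩ := h
  refine ⟨V, inferInstance, ⟨⟨T.G, T.μ, T.cf, ?_, T.nn, T.sum, fun I hI => (T.ind I hI).trans hρ⟩⟩⟩
  intro s hs
  obtain ⟨v, hv, hvd⟩ := T.deg s hs
  exact ⟨v, hv, hvd.trans he⟩

theorem Pr.two (e : ℕ) : Pr 2 e 1 := by
  refine ⟨Unit, inferInstance, ⟨⟨⊥, fun _ => 1, ?_, ?_, fun _ => zero_le_one, by simp, ?_⟩⟩⟩
  · exact SimpleGraph.cliqueFree_of_card_lt (by simp)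
  · intro s hs
    obtain ⟨v, hv⟩ := hs
    exact ⟨v, hv, by simp⟩
  · intro I hI
    exact (wt_le_sum (fun _ => zero_le_one) I).trans (by simp)

theorem Pr.succ {r e d k : ℕ} {ρ : ℝ} (h : Pr r e ρ) (hρ : 0 ≤ ρ) (hρ1 : ρ ≤ 1) (hk : 0 < k)
    (hde : k + e ≤ d) : Pr (r + 1) d (2 * Real.log (1 + 2 * k * ρ) / k) := by
  obtain ⟨W, _, ⟨T⟩⟩ := h
  have hd0 : (0 : ℝ) ≤ d := Nat.cast_nonneg _
  set B : ℝ := (d + 1) * d ^ 2 * (d + 1) ^ k with hB
  have hB0 : 0 ≤ B := by positivity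
  obtain ⟨N, hN⟩ := exists_nat_gt (2 * B + 1)
  have hN1 : (1 : ℝ) < N := by linarith
  have hN0 : 0 < N := by
    have : (0 : ℝ) < N := by linarith
    exact_mod_cast this
  have hNpos : (0 : ℝ) < N := by linarith
  have hδ1 : (1 : ℝ) / N ≤ 1 := by rw [div_le_one hNpos]; exact hN1.le
  have hsm : (d + 1) * (1 / N : ℝ) * d ^ 2 * (d + 1) ^ k ≤ 1 / 2 := by
    have : (d + 1) * (1 / N : ℝ) * d ^ 2 * (d + 1) ^ k = B / N := by rw [hB]; ring
    rw [this, div_le_iff₀ hNpos]
    linarith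
  obtain ⟨V, _, ⟨S⟩⟩ := exists_stage (k := k) (d := d) (copiesWt T N hN0) hρ
    (by positivity : (0 : ℝ) ≤ 1 / N) hδ1 hde (by linarith) (copiesWt_small T N hN0 le_rfl)
    (copiesWt_nbr T N hN0 le_rfl) k le_rfl
  exact ⟨V, inferInstance, ⟨ofStage S hρ hρ1 hk hsm⟩⟩

end

end Pool.Agent.Helper78.FracLB
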