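import Pool.Agent.Helper78.FracLB.Basic

/-!
# The levels and the step from one level to the next
-/

set_option autoImplicit false
set_option linter.unusedSectionVars false
set_option linter.unusedVariables false

namespace Pool.Agent.Helper78.FracLB

open Finset

open scoped Classical

noncomputable section

/-- a weighted graph all of whose independent sets are light -/
structure Wt (r e : ℕ) (ρ : ℝ) (V : Type) [Fintype V] where
  G : SimpleGraph V
  μ : V → ℝ
  cf : G.CliqueFree r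
  deg : Deg G e
  nn : ∀ v, 0 ≤ μ v
  sum : ∑ v, μ v = 1
  ind : ∀ I : Set V, Indep G I → wt μ I ≤ ρ

/-- the first `i` levels -/
structure Stage (r d : ℕ) (ρ δ : ℝ) (i : ℕ) (V : Type) [Fintype V] where
  G : SimpleGraph V
  μ : ℕ → V → ℝ
  cf : G.CliqueFree (r + 1)
  deg : Deg G d
  nn : ∀ j v, 0 ≤ μ j v
  le : ∀ j v, μ j v ≤ δ
  sum_le : ∀ j, ∑ v, μ j v ≤ 1
  sum_ge : ∀ j < i, 1 - (d + 1) * δ * d ^ 2 * (d + 1) ^ i ≤ ∑ v, μ j v
  ind : ∀ I : Set V, Indep G I → ∀ j < i,
    wt (μ j) I ≤ ρ * Real.exp (-(∑ l ∈ range j, wt (μ l) I))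
  adj : ∀ j l, ∑ v, ∑ w, (if G.Adj v w then μ j v * μ l w else 0) ≤ (d + 1) * δ

theorem sum_prod_pi {V : Type} [Fintype V] {i : ℕ} (g : Fin i → V → ℝ) :
    ∑ Z : Fin i → V, ∏ t, g t (Z t) = ∏ t, ∑ v, g t v := by
  rw [prod_univ_sum, Fintype.piFinset_univ]

section

variable {V W : Type} [Fintype V] [Fintype W] {i : ℕ}

/-- the weights with one more level -/
def extW (G : SimpleGraph V) (μ : ℕ → V → ℝ) (θ : W → ℝ) (i : ℕ) (j : ℕ) :
    V ⊕ ((Fin i → V) × W) → ℝ
  | .inl a => if j = i then 0 else μ j a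
  | .inr (Z, h) => if j = i then
      (if ∀ s t, ¬ G.Adj (Z s) (Z t) then (∏ t : Fin i, μ (t : ℕ) (Z t)) * θ h else 0) else 0

variable {G : SimpleGraph V} {H : SimpleGraph W} {μ : ℕ → V → ℝ} {θ : W → ℝ}

theorem extW_inl_ne {j : ℕ} (h : j ≠ i) (a : V) : extW G μ θ i j (.inl a) = μ j a := by
  simp [extW, h]

theorem extW_inl_eq (a : V) : extW G μ θ i i (.inl a) = 0 := by simp [extW]

theorem extW_inr_ne {j : ℕ} (h : j ≠ i) (y : (Fin i → V) × W) :
    extW G μ θ i j (.inr y) = 0 := by simp [extW, h]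

theorem extW_inr_eq (Z : Fin i → V) (h : W) : extW G μ θ i i (.inr (Z, h)) =
    if ∀ s t, ¬ G.Adj (Z s) (Z t) then (∏ t : Fin i, μ (t : ℕ) (Z t)) * θ h else 0 := by simp [extW]

theorem extW_nonneg (hμ : ∀ j v, 0 ≤ μ j v) (hθ : ∀ h, 0 ≤ θ h) (j : ℕ)
    (x : V ⊕ ((Fin i → V) × W)) : 0 ≤ extW G μ θ i j x := by
  rcases x with a | ⟨Z, h⟩
  · rcases eq_or_ne j i with rfl | hj
    · rw [extW_inl_eq]
    · rw [extW_inl_ne hj]; exact hμ _ _
  · rcases eq_or_ne j i with rfl | hj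
    · rw [extW_inr_eq]
      split_ifs
      · exact mul_nonneg (prod_nonneg fun t _ => hμ _ _) (hθ _)
      · exact le_rfl
    · rw [extW_inr_ne hj]

theorem prod_le_one' (hμ : ∀ j v, 0 ≤ μ j v) (h1 : ∀ j v, μ j v ≤ 1) (Z : Fin i → V) :
    ∏ t : Fin i, μ (t : ℕ) (Z t) ≤ 1 := prod_le_one (fun t _ => hμ _ _) fun t _ => h1 _ _

theorem extW_le {δ : ℝ} (hδ : 0 ≤ δ) (hμ : ∀ j v, 0 ≤ μ j v) (hθ : ∀ h, 0 ≤ θ h)
    (h1 : ∀ j v, μ j v ≤ 1) (h2 : ∀ j v, μ j v ≤ δ) (h3 : ∀ h, θ h ≤ δ) (j : ℕ)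
    (x : V ⊕ ((Fin i → V) × W)) : extW G μ θ i j x ≤ δ := by
  rcases x with a | ⟨Z, h⟩
  · rcases eq_or_ne j i with rfl | hj
    · rw [extW_inl_eq]; exact hδ
    · rw [extW_inl_ne hj]; exact h2 _ _
  · rcases eq_or_ne j i with rfl | hj
    · rw [extW_inr_eq]
      split_ifs
      · calc _ ≤ 1 * θ h := mul_le_mul_of_nonneg_right (prod_le_one' hμ h1 Z) (hθ h)
          _ ≤ δ := by rw [one_mul]; exact h3 h
      · exact hδ
    · rw [extW_inr_ne hj]; exact hδ

theorem sum_extW_ne {j : ℕ} (h : j ≠ i) : ∑ x, extW G μ θ i j x = ∑ v, μ j v := by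
  rw [Fintype.sum_sum_type]
  simp only [extW_inl_ne h, extW_inr_ne h, sum_const_zero, add_zero]

theorem wt_extW_ne {j : ℕ} (h : j ≠ i) (I : Set (V ⊕ ((Fin i → V) × W))) :
    wt (extW G μ θ i j) I = wt (μ j) {a | Sum.inl a ∈ I} := by
  unfold wt
  rw [Fintype.sum_sum_type]
  simp only [extW_inl_ne h, extW_inr_ne h, ite_self, sum_const_zero, add_zero, Set.mem_ofPred_eq]

theorem sum_extW_eq (hθ : ∑ h, θ h = 1) : ∑ x, extW G μ θ i i x =
    ∑ Z : Fin i → V, if ∀ s t, ¬ G.Adj (Z s) (Z t) then ∏ t : Fin i, μ (t : ℕ) (Z t) else 0 := by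
  rw [Fintype.sum_sum_type]
  simp only [extW_inl_eq, sum_const_zero, zero_add]
  rw [Fintype.sum_prod_type]
  refine sum_congr rfl fun Z _ => ?_
  simp only [extW_inr_eq]
  split_ifs
  · rw [← mul_sum, hθ, mul_one]
  · simp

theorem sum_extW_eq_le (hμ : ∀ j v, 0 ≤ μ j v) (h1 : ∀ j, ∑ v, μ j v ≤ 1)
    (hθ : ∑ h, θ h = 1) : ∑ x, extW G μ θ i i x ≤ 1 := by
  rw [sum_extW_eq hθ]
  calc _ ≤ ∑ Z : Fin i → V, ∏ t : Fin i, μ (t : ℕ) (Z t) := by
        refine sum_le_sum fun Z _ => ?_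
        split_ifs
        · exact le_rfl
        · exact prod_nonneg fun t _ => hμ _ _
    _ = ∏ t : Fin i, ∑ v, μ (t : ℕ) v := sum_prod_pi fun t v => μ (t : ℕ) v
    _ ≤ 1 := prod_le_one (fun t _ => sum_nonneg fun v _ => hμ _ _) fun t _ => h1 _

/-- the weight of the tuples with a given adjacent pair of entries -/
theorem pair_bound (hμ : ∀ j v, 0 ≤ μ j v) (h1 : ∀ j, ∑ v, μ j v ≤ 1) {β : ℝ} (hβ0 : 0 ≤ β)
    (hβ : ∀ j l, ∑ v, ∑ w, (if G.Adj v w then μ j v * μ l w else 0) ≤ β) (s u : Fin i) :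
    ∑ Z : Fin i → V, (if G.Adj (Z s) (Z u) then ∏ t : Fin i, μ (t : ℕ) (Z t) else 0) ≤ β := by
  rcases eq_or_ne s u with rfl | hsu
  · simpa using hβ0
  refine le_trans ?_ (hβ (s : ℕ) (u : ℕ))
  -- the product with two fixed entries
  have key : ∀ v w : V, ∑ Z : Fin i → V,
      (if Z s = v ∧ Z u = w then ∏ t : Fin i, μ (t : ℕ) (Z t) else 0) ≤ μ (s : ℕ) v * μ (u : ℕ) w := by
    intro v w
    have e1 : ∀ Z : Fin i → V, (if Z s = v ∧ Z u = w then ∏ t : Fin i, μ (t : ℕ) (Z t) else 0) =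
        ∏ t : Fin i, (μ (t : ℕ) (Z t) * (if t = s then (if Z t = v then 1 else 0) else 1) *
          (if t = u then (if Z t = w then 1 else 0) else 1)) := by
      intro Z
      rw [prod_mul_distrib, prod_mul_distrib, prod_ite_eq' univ s, prod_ite_eq' univ u]
      simp only [mem_univ, if_true]
      by_cases h1 : Z s = v <;> by_cases h2 : Z u = w <;> simp [h1, h2]
    simp_rw [e1]
    rw [sum_prod_pi (fun t x => μ (t : ℕ) x * (if t = s then (if x = v then 1 else 0) else 1) *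
      (if t = u then (if x = w then 1 else 0) else 1))]
    have hs : s ∈ (univ : Finset (Fin i)) := mem_univ _
    rw [← mul_prod_erase univ _ hs, ← mul_prod_erase (univ.erase s) _
      (mem_erase.2 ⟨hsu.symm, mem_univ u⟩)]
    have a1 : (∑ x, μ (s : ℕ) x * (if s = s then (if x = v then 1 else 0) else 1) *
        (if s = u then (if x = w then 1 else 0) else 1)) = μ (s : ℕ) v := by
      simp [hsu]
    have a2 : (∑ x, μ (u : ℕ) x * (if u = s then (if x = v then 1 else 0) else 1) *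
        (if u = u then (if x = w then 1 else 0) else 1)) = μ (u : ℕ) w := by
      simp [hsu.symm]
    rw [a1, a2]
    have a3 : ∏ t ∈ (univ.erase s).erase u, (∑ x, μ (t : ℕ) x *
        (if t = s then (if x = v then 1 else 0) else 1) *
        (if t = u then (if x = w then 1 else 0) else 1)) ≤ 1 := by
      refine prod_le_one (fun t _ => sum_nonneg fun x _ => ?_) fun t ht => ?_
      · have : 0 ≤ μ (t : ℕ) x := hμ _ _
        split_ifs <;> simp [this]
      · have ht1 : t ≠ u := (mem_erase.1 ht).1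
        have ht2 : t ≠ s := (mem_erase.1 (mem_erase.1 ht).2).1
        simp only [ht1, ht2, if_false, mul_one]
        exact h1 _
    have := mul_le_mul_of_nonneg_left a3 (mul_nonneg (hμ s v) (hμ u w))
    rw [mul_one] at this
    linarith [this]
  calc _ = ∑ Z : Fin i → V, ∑ v, ∑ w, (if G.Adj v w then
        (if Z s = v ∧ Z u = w then ∏ t : Fin i, μ (t : ℕ) (Z t) else 0) else 0) := by
        refine sum_congr rfl fun Z _ => ?_
        rw [sum_eq_single (Z s), sum_eq_single (Z u)]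
        · simp
        · intro w _ hw
          simp [Ne.symm hw]
        · simp
        · intro v _ hv
          refine sum_eq_zero fun w _ => ?_
          simp [Ne.symm hv]
        · simp
    _ = ∑ v, ∑ w, (if G.Adj v w then ∑ Z : Fin i → V,
        (if Z s = v ∧ Z u = w then ∏ t : Fin i, μ (t : ℕ) (Z t) else 0) else 0) := by
        rw [sum_comm]
        refine sum_congr rfl fun v _ => ?_
        rw [sum_comm]
        refine sum_congr rfl fun w _ => ?_
        split_ifs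
        · rfl
        · simp
    _ ≤ _ := by
        refine sum_le_sum fun v _ => sum_le_sum fun w _ => ?_
        split_ifs
        · exact key v w
        · exact le_rfl

theorem sum_extW_eq_ge (hμ : ∀ j v, 0 ≤ μ j v) (h1 : ∀ j, ∑ v, μ j v ≤ 1)
    (hθ : ∑ h, θ h = 1) {β η : ℝ} (hβ0 : 0 ≤ β) (hη1 : η ≤ 1)
    (hβ : ∀ j l, ∑ v, ∑ w, (if G.Adj v w then μ j v * μ l w else 0) ≤ β)
    (hη : ∀ j < i, 1 - η ≤ ∑ v, μ j v) :
    1 - i * η - i ^ 2 * β ≤ ∑ x, extW G μ θ i i x := by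
  rw [sum_extW_eq hθ]
  have hA : 1 - i * η ≤ ∑ Z : Fin i → V, ∏ t : Fin i, μ (t : ℕ) (Z t) := by
    rw [sum_prod_pi fun (t : Fin i) v => μ (t : ℕ) v]
    calc 1 - i * η = 1 + i * (-η) := by ring
      _ ≤ (1 + -η) ^ i := one_add_mul_le_pow (by linarith) i
      _ = ∏ t : Fin i, (1 - η) := by simp [sub_eq_add_neg]
      _ ≤ _ := prod_le_prod (fun t _ => by linarith) fun t _ => hη t t.2
  have hB : ∀ Z : Fin i → V, (∏ t : Fin i, μ (t : ℕ) (Z t)) ≤
      (if ∀ s t, ¬ G.Adj (Z s) (Z t) then ∏ t : Fin i, μ (t : ℕ) (Z t) else 0) +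
      ∑ s, ∑ u, (if G.Adj (Z s) (Z u) then ∏ t : Fin i, μ (t : ℕ) (Z t) else 0) := by
    intro Z
    have hp : 0 ≤ ∏ t : Fin i, μ (t : ℕ) (Z t) := prod_nonneg fun t _ => hμ _ _
    have hnn : ∀ s u, 0 ≤ (if G.Adj (Z s) (Z u) then ∏ t : Fin i, μ (t : ℕ) (Z t) else 0) := by
      intro s u
      split_ifs
      · exact hp
      · exact le_rfl
    by_cases h : ∀ s t, ¬ G.Adj (Z s) (Z t)
    · rw [if_pos h]
      have : 0 ≤ ∑ s, ∑ u, (if G.Adj (Z s) (Z u) then ∏ t : Fin i, μ (t : ℕ) (Z t) else 0) :=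
        sum_nonneg fun s _ => sum_nonneg fun u _ => hnn s u
      linarith
    · rw [if_neg h, zero_add]
      push Not at h
      obtain ⟨s, u, hsu⟩ := h
      calc _ = (if G.Adj (Z s) (Z u) then ∏ t : Fin i, μ (t : ℕ) (Z t) else 0) := by rw [if_pos hsu]
        _ ≤ ∑ u, (if G.Adj (Z s) (Z u) then ∏ t : Fin i, μ (t : ℕ) (Z t) else 0) :=
          single_le_sum (f := fun u => (if G.Adj (Z s) (Z u) then ∏ t : Fin i, μ (t : ℕ) (Z t) else 0))
            (fun u _ => hnn s u) (mem_univ u)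
        _ ≤ _ := single_le_sum
            (f := fun s => ∑ u, (if G.Adj (Z s) (Z u) then ∏ t : Fin i, μ (t : ℕ) (Z t) else 0))
            (fun s _ => sum_nonneg fun u _ => hnn s u) (mem_univ s)
  have hC := sum_le_sum fun (Z : Fin i → V) (_ : Z ∈ univ) => hB Z
  rw [sum_add_distrib] at hC
  have hD : ∑ Z : Fin i → V, ∑ s, ∑ u, (if G.Adj (Z s) (Z u) then ∏ t : Fin i, μ (t : ℕ) (Z t) else 0)
      ≤ i ^ 2 * β := by
    rw [sum_comm]
    calc _ ≤ ∑ s : Fin i, ∑ u : Fin i, β := by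
          refine sum_le_sum fun s _ => ?_
          rw [sum_comm]
          exact sum_le_sum fun u _ => pair_bound hμ h1 hβ0 hβ s u
      _ = i ^ 2 * β := by simp; ring
  linarith

theorem wt_extW_eq (hμ : ∀ j v, 0 ≤ μ j v) (h1 : ∀ j, ∑ v, μ j v ≤ 1) {ρ : ℝ} (hρ : 0 ≤ ρ)
    (hind : ∀ I : Set W, Indep H I → wt θ I ≤ ρ) (I : Set (V ⊕ ((Fin i → V) × W)))
    (hI : Indep (extG G H i) I) :
    wt (extW G μ θ i i) I ≤
      ρ * Real.exp (-(∑ l ∈ range i, wt (μ l) {a | Sum.inl a ∈ I})) := by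
  set J : Set V := {a | Sum.inl a ∈ I} with hJ
  have hZ : ∀ Z : Fin i → V, ∑ h, (if Sum.inr (Z, h) ∈ I then
      extW G μ θ i i (.inr (Z, h)) else 0) ≤
      (∏ t : Fin i, (if Z t ∈ J then 0 else μ (t : ℕ) (Z t))) * ρ := by
    intro Z
    have hp : 0 ≤ ∏ t : Fin i, (if Z t ∈ J then 0 else μ (t : ℕ) (Z t)) :=
      prod_nonneg fun t _ => by split_ifs; exacts [le_rfl, hμ _ _]
    by_cases hi : ∀ s t, ¬ G.Adj (Z s) (Z t)
    · by_cases hx : ∃ t, Z t ∈ J
      · obtain ⟨t, ht⟩ := hx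
        have : ∀ h : W, (Sum.inr (Z, h) : V ⊕ ((Fin i → V) × W)) ∉ I := by
          intro h hh
          exact hI _ hh _ ht ((ext_rl _ _ _).2 ⟨hi, t, rfl⟩)
        simp only [this, if_false, sum_const_zero]
        exact mul_nonneg hp hρ
      · push Not at hx
        have e1 : ∏ t : Fin i, (if Z t ∈ J then 0 else μ (t : ℕ) (Z t)) = ∏ t : Fin i, μ (t : ℕ) (Z t) :=
          prod_congr rfl fun t _ => if_neg (hx t)
        rw [e1]
        have hII : Indep H {h | (Sum.inr (Z, h) : V ⊕ ((Fin i → V) × W)) ∈ I} := by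
          intro v hv w hw hvw
          exact hI _ hv _ hw ((ext_rr _ _ _ _).2 ⟨rfl, hvw⟩)
        have := hind _ hII
        calc _ = ∑ h, (∏ t : Fin i, μ (t : ℕ) (Z t)) * (if h ∈ {h | (Sum.inr (Z, h) :
                V ⊕ ((Fin i → V) × W)) ∈ I} then θ h else 0) := by
              refine sum_congr rfl fun h _ => ?_
              rw [extW_inr_eq, if_pos hi]
              simp only [Set.mem_ofPred_eq, mul_ite, mul_zero]
          _ = (∏ t : Fin i, μ (t : ℕ) (Z t)) * wt θ {h | (Sum.inr (Z, h) :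
                V ⊕ ((Fin i → V) × W)) ∈ I} := by rw [← mul_sum]; rfl
          _ ≤ _ := mul_le_mul_of_nonneg_left this (prod_nonneg fun t _ => hμ _ _)
    · have : ∀ h : W, extW G μ θ i i (.inr (Z, h)) = 0 := by
        intro h
        rw [extW_inr_eq, if_neg hi]
      simp only [this, ite_self, sum_const_zero]
      exact mul_nonneg hp hρ
  calc wt (extW G μ θ i i) I = ∑ Z : Fin i → V, ∑ h, (if Sum.inr (Z, h) ∈ I then
        extW G μ θ i i (.inr (Z, h)) else 0) := by
        unfold wt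
        rw [Fintype.sum_sum_type]
        simp only [extW_inl_eq, ite_self, sum_const_zero, zero_add]
        rw [Fintype.sum_prod_type]
    _ ≤ ∑ Z : Fin i → V, (∏ t : Fin i, (if Z t ∈ J then 0 else μ (t : ℕ) (Z t))) * ρ :=
        sum_le_sum fun Z _ => hZ Z
    _ = (∏ t : Fin i, ∑ v, (if v ∈ J then 0 else μ (t : ℕ) v)) * ρ := by
        rw [← sum_mul, sum_prod_pi fun (t : Fin i) v => (if v ∈ J then 0 else μ (t : ℕ) v)]
    _ ≤ (∏ t : Fin i, Real.exp (-(wt (μ (t : ℕ)) J))) * ρ := by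
        refine mul_le_mul_of_nonneg_right (prod_le_prod (fun t _ => sum_nonneg fun v _ => ?_)
          fun t _ => ?_) hρ
        · split_ifs
          exacts [le_rfl, hμ _ _]
        · have e2 : ∑ v, (if v ∈ J then 0 else μ (t : ℕ) v) = ∑ v, μ (t : ℕ) v - wt (μ t) J := by
            unfold wt
            rw [← sum_sub_distrib]
            refine sum_congr rfl fun v _ => ?_
            split_ifs <;> simp
          rw [e2]
          have := Real.add_one_le_exp (-(wt (μ (t : ℕ)) J))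
          have := h1 t
          linarith
    _ = _ := by
        rw [← Real.exp_sum, mul_comm, sum_neg_distrib, sum_range]

theorem adj_comm (F K : V → ℝ) : ∑ v, ∑ w, (if G.Adj v w then F v * K w else 0) =
    ∑ v, ∑ w, (if G.Adj v w then K v * F w else 0) := by
  rw [sum_comm]
  refine sum_congr rfl fun v _ => sum_congr rfl fun w _ => ?_
  simp only [G.adj_comm w v]
  split_ifs
  · ring
  · rfl

/-- weight of the neighbours of a vertex of the new level -/
theorem nbr_le {δ : ℝ} (hδ : 0 ≤ δ) (hμ : ∀ j v, 0 ≤ μ j v) (hθ : ∀ h, 0 ≤ θ h)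
    (h1 : ∀ j v, μ j v ≤ 1) (h2 : ∀ j v, μ j v ≤ δ)
    (hN : ∀ h, ∑ h', (if H.Adj h h' then θ h' else 0) ≤ δ) (l : ℕ) (Z : Fin i → V) (h : W) :
    ∑ x, (if (extG G H i).Adj (.inr (Z, h)) x then extW G μ θ i l x else 0) ≤ (i + 1) * δ := by
  rw [Fintype.sum_sum_type]
  rcases eq_or_ne l i with rfl | hl
  · simp only [extW_inl_eq, ite_self, sum_const_zero, zero_add]
    rw [Fintype.sum_prod_type, sum_eq_single Z]
    · calc _ ≤ ∑ h', (if H.Adj h h' then θ h' else 0) := by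
            refine sum_le_sum fun h' _ => ?_
            simp only [ext_rr, true_and, extW_inr_eq]
            split_ifs
            · calc _ ≤ 1 * θ h' := mul_le_mul_of_nonneg_right (prod_le_one' hμ h1 Z) (hθ h')
                _ = θ h' := one_mul _
            · exact hθ _
            · exact le_rfl
        _ ≤ δ := hN h
        _ ≤ _ := by
            have : (0 : ℝ) ≤ l := Nat.cast_nonneg _
            nlinarith
    · intro Z' _ hZ'
      refine sum_eq_zero fun h' _ => ?_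
      rw [if_neg]
      rw [ext_rr]
      rintro ⟨h3, _⟩
      exact hZ' h3.symm
    · simp
  · simp only [extW_inr_ne hl, ite_self, sum_const_zero, add_zero, extW_inl_ne hl, ext_rl]
    calc _ ≤ ∑ a, ∑ t : Fin i, (if Z t = a then μ l a else 0) := by
          refine sum_le_sum fun a _ => ?_
          have hnn : ∀ t : Fin i, 0 ≤ (if Z t = a then μ l a else 0) := fun t => by
            split_ifs
            exacts [hμ _ _, le_rfl]
          split_ifs with hc
          · obtain ⟨_, t, ht⟩ := hc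
            calc μ l a = (if Z t = a then μ l a else 0) := by rw [if_pos ht]
              _ ≤ _ := single_le_sum (f := fun t : Fin i => if Z t = a then μ l a else 0)
                (fun t _ => hnn t) (mem_univ t)
          · exact sum_nonneg fun t _ => hnn t
      _ = ∑ t : Fin i, μ l (Z t) := by
          rw [sum_comm]
          refine sum_congr rfl fun t _ => ?_
          simp
      _ ≤ ∑ t : Fin i, δ := sum_le_sum fun t _ => h2 _ _
      _ ≤ _ := by
          simp
          nlinarith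

end

end

end Pool.Agent.Helper78.FracLB
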